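import Mathlib

set_option autoImplicit false

namespace Pool.Agent.H1.AHP

variable {P B : Type}

/-- `[x,y] > 1`: at least two blocks are incident with both points `x` and `y`. -/
def ManyJoins (I : P → B → Prop) (x y : P) : Prop :=
  ∃ C D : B, C ≠ D ∧ I x C ∧ I y C ∧ I x D ∧ I y D

/-- `C ∼ₐ D`: for every point `x` on one of `C`, `D` there is a point `y` on the other
with `[x,y] > 1`. -/
def Near (I : P → B → Prop) (C D : B) : Prop :=
  (∀ x, I x C → ∃ y, I y D ∧ ManyJoins I x y) ∧ (∀ x, I x D → ∃ y, I y C ∧ ManyJoins I x y)

/-- Ordinary affine planes: two distinct points are on exactly one line; through a point off a line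
there is exactly one line missing that line; every line has two points; there are three points not
on a common line. -/
structure IsAffinePlane (I : P → B → Prop) : Prop where
  join : ∀ x y : P, x ≠ y → ∃! C : B, I x C ∧ I y C
  playfair : ∀ (x : P) (C : B), ¬ I x C → ∃! D : B, I x D ∧ ∀ y, ¬ (I y C ∧ I y D)
  twoPoints : ∀ C : B, ∃ x y : P, x ≠ y ∧ I x C ∧ I y C
  triangle : ∃ x y z : P, ¬ ∃ C : B, I x C ∧ I y C ∧ I z C

/-- Affine Hjelmslev planes, with parallelism the equivalence relation `par`. In the last axiom
`f`, `g` are the maps on points and blocks of the epimorphism `μ` onto an ordinary affine plane: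
both are onto, and a point and a block of that plane are incident if and only if they are the images
of an incident pair. -/
structure IsAHPlane (I : P → B → Prop) (par : Setoid B) : Prop where
  join : ∀ x y : P, ∃ C : B, I x C ∧ I y C
  parallel : ∀ (p : P) (C : B), ∃! D : B, I p D ∧ par.r C D
  near : ∀ C D : B, C ≠ D → Near I C D → ¬ ∃! p : P, I p C ∧ I p D
  epi : ∃ (P' B' : Type) (I' : P' → B' → Prop) (f : P → P') (g : B → B'),
    IsAffinePlane I' ∧ Function.Surjective f ∧ Function.Surjective g ∧
    (∀ (q : P') (D : B'), I' q D ↔ ∃ (p : P) (C : B), f p = q ∧ g C = D ∧ I p C) ∧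
    (∀ x y : P, f x = f y ↔ ManyJoins I x y) ∧
    (∀ C D : B, g C = g D ↔ Near I C D)

/-- An automorphism: a pair of bijections of points and blocks preserving incidence in both
directions. -/
def IsAut (I : P → B → Prop) (σ : Equiv.Perm P × Equiv.Perm B) : Prop :=
  ∀ (p : P) (C : B), I (σ.1 p) (σ.2 C) ↔ I p C

/-- A translation: an automorphism mapping each block of some parallel class to itself, which is
the identity or fixes no point. -/
def IsTranslation (I : P → B → Prop) (par : Setoid B) (σ : Equiv.Perm P × Equiv.Perm B) : Prop :=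
  IsAut I σ ∧ (∃ C : B, ∀ D : B, par.r C D → σ.2 D = D) ∧ (σ = 1 ∨ ∀ p : P, σ.1 p ≠ p)

end Pool.Agent.H1.AHP
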