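import Mathlib
import Pool.Agent.H1.AHP.Defs

set_option autoImplicit false

namespace Pool.Agent.H1.AHP

abbrev Pt := Fin 4 × Fin 4
/-- `inl (m,c)` is `y = m x + c`; `inr (k,c)` is `x = 2 k y + c`. -/
abbrev Bl := (Fin 4 × Fin 4) ⊕ (Fin 2 × Fin 4)

def dbl (k : Fin 2) : Fin 4 := if k = 0 then 0 else 2

def inc (p : Pt) : Bl → Bool
  | Sum.inl (m, c) => p.2 == m * p.1 + c
  | Sum.inr (k, c) => p.1 == dbl k * p.2 + c

def Inc (p : Pt) (C : Bl) : Prop := inc p C = true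

instance (p : Pt) (C : Bl) : Decidable (Inc p C) := inferInstanceAs (Decidable (inc p C = true))

/-- direction of a block -/
def dir : Bl → Fin 4 ⊕ Fin 2
  | Sum.inl (m, _) => Sum.inl m
  | Sum.inr (k, _) => Sum.inr k

def par : Setoid Bl := ⟨fun C D => dir C = dir D, ⟨fun _ => rfl, fun h => h.symm, fun h h' => h.trans h'⟩⟩

instance (C D : Bl) : Decidable (par.r C D) := inferInstanceAs (Decidable (dir C = dir D))

def red (a : Fin 4) : Fin 2 := ⟨a.val % 2, Nat.mod_lt _ (by norm_num)⟩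

def redP (p : Pt) : Fin 2 × Fin 2 := (red p.1, red p.2)

abbrev Bl2 := (Fin 2 × Fin 2) ⊕ Fin 2

def redB : Bl → Bl2
  | Sum.inl (m, c) => Sum.inl (red m, red c)
  | Sum.inr (_, c) => Sum.inr (red c)

def inc2 (p : Fin 2 × Fin 2) : Bl2 → Bool
  | Sum.inl (m, c) => p.2 == m * p.1 + c
  | Sum.inr c => p.1 == c

def Inc2 (p : Fin 2 × Fin 2) (C : Bl2) : Prop := inc2 p C = true

instance (p : Fin 2 × Fin 2) (C : Bl2) : Decidable (Inc2 p C) :=
  inferInstanceAs (Decidable (inc2 p C = true))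

instance (x y : Pt) : Decidable (ManyJoins Inc x y) := by unfold ManyJoins; infer_instance

theorem many_iff : ∀ x y : Pt, (redP x = redP y ↔ ManyJoins Inc x y) := by decide +kernel

def near' (C D : Bl) : Prop :=
  (∀ x, Inc x C → ∃ y, Inc y D ∧ redP x = redP y) ∧ (∀ x, Inc x D → ∃ y, Inc y C ∧ redP x = redP y)

instance (C D : Bl) : Decidable (near' C D) := by unfold near'; infer_instance

theorem near_iff (C D : Bl) : Near Inc C D ↔ near' C D := by
  unfold Near near'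
  simp only [many_iff]

theorem near'_iff : ∀ C D : Bl, redB C = redB D ↔ near' C D := by decide +kernel

theorem near_ax' : ∀ C D : Bl, ∀ p : Pt, (C ≠ D ∧ redB C = redB D ∧ Inc p C ∧ Inc p D) →
    ∃ q : Pt, q ≠ p ∧ Inc q C ∧ Inc q D := by decide +kernel

theorem near_ax (C D : Bl) (h : C ≠ D) (h' : redB C = redB D) (p : Pt) (h1 : Inc p C)
    (h2 : Inc p D) : ∃ q : Pt, q ≠ p ∧ Inc q C ∧ Inc q D := near_ax' C D p ⟨h, h', h1, h2⟩

theorem joinAx : ∀ x y : Pt, ∃ C : Bl, Inc x C ∧ Inc y C := by decide +kernel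

theorem parAx : ∀ (p : Pt) (C : Bl), ∃ D : Bl, (Inc p D ∧ dir C = dir D) ∧
    ∀ E : Bl, (Inc p E ∧ dir C = dir E) → E = D := by decide +kernel

theorem surjP : ∀ q : Fin 2 × Fin 2, ∃ p : Pt, redP p = q := by decide +kernel
theorem surjB : ∀ q : Bl2, ∃ p : Bl, redB p = q := by decide +kernel

theorem incAx : ∀ (q : Fin 2 × Fin 2) (D : Bl2),
    Inc2 q D ↔ ∃ (p : Pt) (C : Bl), redP p = q ∧ redB C = D ∧ Inc p C := by decide +kernel

theorem aff_join : ∀ x y : Fin 2 × Fin 2, x ≠ y → ∃ C : Bl2, (Inc2 x C ∧ Inc2 y C) ∧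
    ∀ D : Bl2, (Inc2 x D ∧ Inc2 y D) → D = C := by decide +kernel

theorem aff_playfair : ∀ (x : Fin 2 × Fin 2) (C : Bl2), ¬ Inc2 x C →
    ∃ D : Bl2, (Inc2 x D ∧ ∀ y, ¬ (Inc2 y C ∧ Inc2 y D)) ∧
    ∀ E : Bl2, (Inc2 x E ∧ ∀ y, ¬ (Inc2 y C ∧ Inc2 y E)) → E = D := by decide +kernel

theorem aff_two : ∀ C : Bl2, ∃ x y : Fin 2 × Fin 2, x ≠ y ∧ Inc2 x C ∧ Inc2 y C := by
  decide +kernel

theorem aff_tri : ∃ x y z : Fin 2 × Fin 2, ¬ ∃ C : Bl2, Inc2 x C ∧ Inc2 y C ∧ Inc2 z C := by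
  decide +kernel

theorem affine2 : IsAffinePlane Inc2 := ⟨aff_join, aff_playfair, aff_two, aff_tri⟩

theorem isAHPlane : IsAHPlane Inc par where
  join := joinAx
  parallel := parAx
  near := by
    rintro C D hne hn ⟨p, ⟨h1, h2⟩, huniq⟩
    rw [near_iff, ← near'_iff] at hn
    obtain ⟨q, hq, hq1, hq2⟩ := near_ax C D hne hn p h1 h2
    exact hq (huniq q ⟨hq1, hq2⟩)
  epi := ⟨Fin 2 × Fin 2, Bl2, Inc2, redP, redB, affine2, surjP, surjB, incAx, many_iff,
    fun C D => by rw [near_iff, near'_iff]⟩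

/-- `(x,y) ↦ (x, y + 2x + 1)` on points -/
def tP : Equiv.Perm Pt where
  toFun p := (p.1, p.2 + (2 * p.1 + 1))
  invFun p := (p.1, p.2 - (2 * p.1 + 1))
  left_inv := by decide +kernel
  right_inv := by decide +kernel

/-- the action on blocks: `y = m x + c ↦ y = (m+2) x + (c+1)`;
`x = 2 k y + c ↦ x = 2 k y + (c + 2 k)`, with `2 k (2 x + 1) = 2 k` -/
def tB : Equiv.Perm Bl where
  toFun C := match C with
    | Sum.inl (m, c) => Sum.inl (m + 2, c + 1)
    | Sum.inr (k, c) => Sum.inr (k, c - dbl k)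
  invFun C := match C with
    | Sum.inl (m, c) => Sum.inl (m - 2, c - 1)
    | Sum.inr (k, c) => Sum.inr (k, c + dbl k)
  left_inv := by decide +kernel
  right_inv := by decide +kernel

/-- `(x,y) ↦ (x, y - 1)` on points -/
def sP : Equiv.Perm Pt where
  toFun p := (p.1, p.2 - 1)
  invFun p := (p.1, p.2 + 1)
  left_inv := by decide +kernel
  right_inv := by decide +kernel

def sB : Equiv.Perm Bl where
  toFun C := match C with
    | Sum.inl (m, c) => Sum.inl (m, c - 1)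
    | Sum.inr (k, c) => Sum.inr (k, c + dbl k)
  invFun C := match C with
    | Sum.inl (m, c) => Sum.inl (m, c + 1)
    | Sum.inr (k, c) => Sum.inr (k, c - dbl k)
  left_inv := by decide +kernel
  right_inv := by decide +kernel

theorem autT : ∀ (p : Pt) (C : Bl), Inc (tP p) (tB C) ↔ Inc p C := by decide +kernel
theorem autS : ∀ (p : Pt) (C : Bl), Inc (sP p) (sB C) ↔ Inc p C := by decide +kernel

theorem transT : IsTranslation Inc par (tP, tB) :=
  ⟨autT, ⟨Sum.inr (0, 0), by decide +kernel⟩, Or.inr (by decide +kernel)⟩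

theorem transS : IsTranslation Inc par (sP, sB) :=
  ⟨autS, ⟨Sum.inr (0, 0), by decide +kernel⟩, Or.inr (by decide +kernel)⟩

theorem not_trans (par' : Setoid Bl) : ¬ IsTranslation Inc par' ((sP, sB) * (tP, tB)) := by
  rintro ⟨_, _, h | h⟩
  · have h1 : (sP * tP) (1, 0) = (1, 0) := by
      have := congrArg Prod.fst h
      simp only [Prod.fst_mul, Prod.fst_one] at this
      rw [this]; rfl
    revert h1
    decide +kernel
  · apply h (0, 0)
    decide +kernel

end Pool.Agent.H1.AHP
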